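import Pool.Agent.helper33.GR2.Spec

/-!
# Project g2: module WEX: the size of `SS` for the quadratic family
-/

set_option autoImplicit false

open Complex Metric Set Filter Topology MeasureTheory
open MPS (om)
open PPS (pre TT fd)
open XPS (Df er dens tau)
open Pool.Agent.helper16.Multibrot

noncomputable section

namespace GR

theorem WEX_key (z : ℝ) (hz : 0 < z) (t : ℕ) (h : (1 / 6 : ℝ) ^ t / 8 ≤ z) :
    Real.log (1 / (8 * z)) / Real.log 6 ≤ t := by
  have l6 : 0 < Real.log 6 := Real.log_pos (by norm_num)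
  rw [div_le_iff₀ l6]
  have h1 : (1 : ℝ) / (8 * z) ≤ 6 ^ t := by
    rw [div_le_iff₀ (by positivity)]
    have h2 : (1 / 6 : ℝ) ^ t * 6 ^ t = 1 := by
      rw [← mul_pow]
      norm_num
    have h6 : (0 : ℝ) < 6 ^ t := by positivity
    have h3 : (1 / 6 : ℝ) ^ t ≤ 8 * z := by linarith
    nlinarith [mul_le_mul_of_nonneg_left h3 h6.le]
  calc Real.log (1 / (8 * z)) ≤ Real.log (6 ^ t) := Real.log_le_log (by positivity) h1
    _ = t * Real.log 6 := by rw [Real.log_pow]

theorem WEX_log (z : ℝ) (hz : 0 < z) :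
    max (-Real.log z) 0 ≤ Real.log 8 +
      Real.log 6 * max (Real.log (1 / (8 * z)) / Real.log 6) 0 := by
  have l6 : 0 < Real.log 6 := Real.log_pos (by norm_num)
  have h8 : 0 < Real.log 8 := Real.log_pos (by norm_num)
  have e : Real.log 6 * (Real.log (1 / (8 * z)) / Real.log 6) = - Real.log 8 - Real.log z := by
    have e1 : Real.log 6 * (Real.log (1 / (8 * z)) / Real.log 6) = Real.log (1 / (8 * z)) := by
      field_simp
    rw [e1, one_div, Real.log_inv, Real.log_mul (by norm_num) hz.ne']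
    ring
  apply max_le
  · have h1 : Real.log 6 * (Real.log (1 / (8 * z)) / Real.log 6) ≤
        Real.log 6 * max (Real.log (1 / (8 * z)) / Real.log 6) 0 :=
      mul_le_mul_of_nonneg_left (le_max_left _ _) l6.le
    linarith
  · have h1 : 0 ≤ Real.log 6 * max (Real.log (1 / (8 * z)) / Real.log 6) 0 :=
      mul_nonneg l6.le (le_max_right _ _)
    linarith

theorem WEX (hAEX : AEX_stmt) (hBEX : BEX_stmt) (hCSM : CSM_stmt) (hBDM : BDM_stmt) :
    WEX_stmt := by
  intro c hc hh p hp
  have hZ2 : ∀ j, ‖Z 2 c j‖ ≤ 2 := hBDM 2 c le_rfl hc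
  have hZp : ∀ m, 1 ≤ m → 0 < ‖Z 2 c m‖ := fun m hm =>
    lt_of_lt_of_le (by positivity) (hAEX c hc hh m hm)
  have l6 : 0 < Real.log 6 := Real.log_pos (by norm_num)
  have hsum := hCSM p (fun k => Real.log (1 / (8 * ‖Z 2 c k‖)) / Real.log 6) hp
    (fun k hk => WEX_key _ (hZp k hk) k (by
      have h1 := hAEX c hc hh k hk
      have h2 : (0 : ℝ) < (1 / 6 : ℝ) ^ k := by positivity
      linarith))
    (fun m t hm ht => by
      rcases le_max_iff.1 (hBEX c hc hh m t hm ht) with h | h
      · exact (min_le_left _ _).trans (WEX_key _ (hZp m hm) t h)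
      · exact (min_le_right _ _).trans (WEX_key _ (hZp (m + t) (by omega)) t h))
  set T := ∑ k ∈ Finset.Icc 1 p, max (-Real.log ‖Z 2 c k‖) 0 with hTdef
  have hT : T ≤ p * Real.log 8 + Real.log 6 * (p * (2 + Real.log p)) := by
    calc T ≤ ∑ k ∈ Finset.Icc 1 p, (Real.log 8 +
          Real.log 6 * max (Real.log (1 / (8 * ‖Z 2 c k‖)) / Real.log 6) 0) := by
          refine Finset.sum_le_sum fun k hk => WEX_log _ (hZp k (Finset.mem_Icc.1 hk).1)
      _ = p * Real.log 8 + Real.log 6 *
          ∑ k ∈ Finset.Icc 1 p, max (Real.log (1 / (8 * ‖Z 2 c k‖)) / Real.log 6) 0 := by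
          rw [Finset.sum_add_distrib, Finset.sum_const, Nat.card_Icc, nsmul_eq_mul,
            Finset.mul_sum]
          norm_num
      _ ≤ p * Real.log 8 + Real.log 6 * (p * (2 + Real.log p)) := by
          gcongr
  have hA : ∀ i, ‖A 2 c i‖ = ∏ k ∈ Finset.Ico 1 i, (2 * ‖Z 2 c k‖) := by
    intro i
    unfold A
    rw [norm_prod]
    refine Finset.prod_congr rfl fun k _ => ?_
    rw [norm_mul, norm_pow]
    norm_num
  have hlow : ∀ i ∈ Finset.Icc 1 p, Real.exp (-T) ≤ ‖A 2 c i‖ := by
    intro i hi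
    rw [hA i]
    have hi' := Finset.mem_Icc.1 hi
    have h1 : ∏ k ∈ Finset.Ico 1 i, Real.exp (-(max (-Real.log ‖Z 2 c k‖) 0)) ≤
        ∏ k ∈ Finset.Ico 1 i, (2 * ‖Z 2 c k‖) := by
      refine Finset.prod_le_prod (fun k _ => (Real.exp_pos _).le) fun k hk => ?_
      have hz := hZp k (Finset.mem_Ico.1 hk).1
      have h2 : Real.exp (-(max (-Real.log ‖Z 2 c k‖) 0)) ≤ ‖Z 2 c k‖ := by
        calc Real.exp (-(max (-Real.log ‖Z 2 c k‖) 0)) ≤ Real.exp (Real.log ‖Z 2 c k‖) := by
              apply Real.exp_le_exp.2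
              have := le_max_left (-Real.log ‖Z 2 c k‖) 0
              linarith
          _ = ‖Z 2 c k‖ := Real.exp_log hz
      linarith
    refine le_trans ?_ h1
    rw [← Real.exp_sum]
    apply Real.exp_le_exp.2
    rw [Finset.sum_neg_distrib]
    apply neg_le_neg
    rw [hTdef]
    refine Finset.sum_le_sum_of_subset_of_nonneg ?_ fun k _ _ => le_max_right _ _
    intro k hk
    rw [Finset.mem_Ico] at hk
    rw [Finset.mem_Icc]
    omega
  have hup : ∀ j ∈ Finset.Icc 1 p, ‖A 2 c j‖ ≤ 4 ^ p := by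
    intro j hj
    rw [hA j]
    have hj' := Finset.mem_Icc.1 hj
    calc ∏ k ∈ Finset.Ico 1 j, (2 * ‖Z 2 c k‖) ≤ ∏ k ∈ Finset.Ico 1 j, (4 : ℝ) := by
          refine Finset.prod_le_prod (fun k _ => by positivity) fun k _ => ?_
          have := hZ2 k
          linarith
      _ = 4 ^ (j - 1) := by rw [Finset.prod_const, Nat.card_Ico]
      _ ≤ 4 ^ p := by
          apply pow_le_pow_right₀ (by norm_num)
          omega
  have hSS : SS 2 c p ≤ p * (p * (4 ^ p * Real.exp T)) := by
    unfold SS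
    calc ∑ i ∈ Finset.Icc 1 p, ∑ j ∈ Finset.Icc 1 p, ‖A 2 c j‖ / ‖A 2 c i‖
        ≤ ∑ i ∈ Finset.Icc 1 p, ∑ j ∈ Finset.Icc 1 p, (4 ^ p * Real.exp T) := by
          refine Finset.sum_le_sum fun i hi => Finset.sum_le_sum fun j hj => ?_
          have h1 := hlow i hi
          have h2 := hup j hj
          have h0 : 0 < Real.exp (-T) := Real.exp_pos _
          have h3 : 0 < ‖A 2 c i‖ := lt_of_lt_of_le h0 h1
          rw [div_le_iff₀ h3]
          have h4 : Real.exp T * Real.exp (-T) = 1 := by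
            rw [← Real.exp_add]
            simp
          calc ‖A 2 c j‖ ≤ 4 ^ p := h2
            _ = 4 ^ p * (Real.exp T * Real.exp (-T)) := by rw [h4, mul_one]
            _ ≤ 4 ^ p * (Real.exp T * ‖A 2 c i‖) := by
                gcongr
            _ = 4 ^ p * Real.exp T * ‖A 2 c i‖ := by ring
      _ = p * (p * (4 ^ p * Real.exp T)) := by
          rw [Finset.sum_const, Finset.sum_const, Nat.card_Icc, nsmul_eq_mul, nsmul_eq_mul]
          norm_num
  have hp1 : (1 : ℝ) ≤ p := by exact_mod_cast hp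
  have hp0 : (0 : ℝ) < p := by linarith
  have hL : 0 ≤ Real.log p := Real.log_nonneg hp1
  have hSS0 : 0 ≤ SS 2 c p := by
    unfold SS
    exact Finset.sum_nonneg fun i _ => Finset.sum_nonneg fun j _ => by positivity
  have hlogSS : Real.log (SS 2 c p) ≤ Real.log p + (Real.log p + (p * Real.log 4 + T)) := by
    have hT0 : 0 ≤ T := Finset.sum_nonneg fun k _ => le_max_right _ _
    rcases hSS0.eq_or_lt with h | h
    · rw [← h, Real.log_zero]
      have h4 : 0 ≤ Real.log 4 := Real.log_nonneg (by norm_num)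
      positivity
    · calc Real.log (SS 2 c p) ≤ Real.log (p * (p * (4 ^ p * Real.exp T))) :=
            Real.log_le_log h hSS
        _ = Real.log p + (Real.log p + (p * Real.log 4 + T)) := by
            have h4 : (0 : ℝ) < 4 ^ p := by positivity
            have he := Real.exp_pos T
            rw [Real.log_mul hp0.ne' (by positivity), Real.log_mul hp0.ne' (by positivity),
              Real.log_mul h4.ne' he.ne', Real.log_pow, Real.log_exp]
  have e2 := Real.log_two_lt_d9
  have e8 : Real.log 8 ≤ 2.1 := by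
    have : Real.log 8 = 3 * Real.log 2 := by
      rw [show (8 : ℝ) = 2 ^ 3 by norm_num, Real.log_pow]
      norm_num
    rw [this]
    linarith
  have e4 : Real.log 4 ≤ 1.4 := by
    have : Real.log 4 = 2 * Real.log 2 := by
      rw [show (4 : ℝ) = 2 ^ 2 by norm_num, Real.log_pow]
      norm_num
    rw [this]
    linarith
  have e6 : Real.log 6 ≤ 2.1 :=
    (Real.log_le_log (by norm_num) (by norm_num : (6 : ℝ) ≤ 8)).trans e8
  have f1 : (p : ℝ) * Real.log 4 ≤ p * 1.4 := by gcongr
  have f2 : (p : ℝ) * Real.log 8 ≤ p * 2.1 := by gcongr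
  have f3 : Real.log 6 * (p * (2 + Real.log p)) ≤ 2.1 * (p * (2 + Real.log p)) := by gcongr
  have f4 : Real.log p ≤ p * Real.log p := by nlinarith
  nlinarith [mul_nonneg hp0.le hL]

end GR
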